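import Mathlib

/-! Project Y142-SU, ROOTU: the diagonal case -/

set_option autoImplicit false
set_option linter.unusedSectionVars false

open Matrix

namespace Pool.Agent.Y15.SU

section

variable {F ι : Type} [Field F] [CharZero F] [Fintype ι] [DecidableEq ι]

/-- the root vectors -/
def EE (J : Matrix ι ι F) (s : ι → ι) (a b : ι) : Matrix ι ι F :=
  Matrix.of fun p q => (if p = a ∧ q = b then 1 else 0) -
    J a (s a) / J b (s b) * (if p = s b ∧ q = s a then 1 else 0)

/-- the data in the eigenbasis -/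
structure Dat (x : ι → F) (c : F) (J : Matrix ι ι F) (s : ι → ι) (T : ι → ι → Prop)
    (𝔤 : Submodule F (Matrix ι ι F)) : Prop where
  x0 : ∀ a, x a ≠ 0
  xs : ∀ a, x a * x (s a) = c
  ss : ∀ a, s (s a) = a
  Jz : ∀ a b, b ≠ s a → J a b = 0
  Jn : ∀ a, J a (s a) ≠ 0
  gen : ∀ a b d e, a ≠ b → x a * x e = x d * x b → (d = a ∧ e = b) ∨ (d = s b ∧ e = s a)
  sim : ∀ Z ∈ 𝔤, ∃ μ : F, Zᵀ * J + J * Z = μ • J
  br : ∀ X ∈ 𝔤, ∀ Y ∈ 𝔤, X * Y - Y * X ∈ 𝔤
  ad : ∀ Z ∈ 𝔤, (Matrix.of fun a b => x a / x b * Z a b) ∈ 𝔤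
  Te : Equivalence T
  Tn : ∀ a, ¬ T a (s a)
  off : ∀ Z ∈ 𝔤, ∀ a b, Z a b ≠ 0 → T a b
  adj : ∀ a b, T a b → Matrix.single a b (1 : F) ∈
    Algebra.adjoin F (𝔤 : Set (Matrix ι ι F))

variable {x : ι → F} {c : F} {J : Matrix ι ι F} {s : ι → ι} {T : ι → ι → Prop}
  {𝔤 : Submodule F (Matrix ι ι F)}

theorem rel (h : Dat x c J s T 𝔤) {Z : Matrix ι ι F} {μ : F} (hZ : Zᵀ * J + J * Z = μ • J)
    (a b : ι) :
    J b (s b) * Z b a + J a (s a) * Z (s a) (s b) = μ * (if s b = s a then J a (s a) else 0) := by
  have h1 := congrFun (congrFun hZ a) (s b)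
  simp only [Matrix.add_apply, Matrix.mul_apply, Matrix.transpose_apply, Matrix.smul_apply,
    smul_eq_mul] at h1
  rw [Finset.sum_eq_single b, Finset.sum_eq_single (s a)] at h1
  · rw [mul_comm (J b (s b)) (Z b a), h1]
    congr 1
    by_cases hab : s b = s a
    · rw [if_pos hab, hab]
    · rw [if_neg hab, h.Jz _ _ hab]
  · intro k _ hk
    rw [h.Jz a k hk, zero_mul]
  · intro hk
    exact absurd (Finset.mem_univ _) hk
  · intro k _ hk
    have : s b ≠ s k := by
      intro h2
      apply hk
      rw [← h.ss k, ← h2, h.ss]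
    rw [h.Jz k (s b) this, mul_zero]
  · intro hk
    exact absurd (Finset.mem_univ _) hk

/-- polynomials in the adjoint action -/
theorem ad_poly (h : Dat x c J s T 𝔤) {Z : Matrix ι ι F} (hZ : Z ∈ 𝔤) (p : Polynomial F) :
    (Matrix.of fun a b => p.eval (x a / x b) * Z a b) ∈ 𝔤 := by
  induction p using Polynomial.induction_on with
  | C r =>
    have : (Matrix.of fun a b => (Polynomial.C r).eval (x a / x b) * Z a b) = r • Z := by
      ext a b
      simp
    rw [this]
    exact 𝔤.smul_mem _ hZ
  | add p q hp hq =>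
    have : (Matrix.of fun a b => (p + q).eval (x a / x b) * Z a b) =
        (Matrix.of fun a b => p.eval (x a / x b) * Z a b) +
        (Matrix.of fun a b => q.eval (x a / x b) * Z a b) := by
      ext a b
      simp [add_mul]
    rw [this]
    exact 𝔤.add_mem hp hq
  | monomial n r hp =>
    have h1 := h.ad _ hp
    have : (Matrix.of fun a b => (Polynomial.C r * Polynomial.X ^ (n + 1)).eval (x a / x b) * Z a b) =
        (Matrix.of fun a b => x a / x b * (Matrix.of fun a b =>
          (Polynomial.C r * Polynomial.X ^ n).eval (x a / x b) * Z a b) a b) := by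
      ext a b
      simp only [Matrix.of_apply, Polynomial.eval_mul, Polynomial.eval_C, Polynomial.eval_pow,
        Polynomial.eval_X]
      ring
    rw [this]
    exact h1

/-- separation -/
theorem sep (x0 : F) (S : Finset F) : ∃ p : Polynomial F, p.eval x0 = 1 ∧
    ∀ y ∈ S, y ≠ x0 → p.eval y = 0 := by
  classical
  refine ⟨∏ y ∈ S.erase x0, (Polynomial.C (x0 - y)⁻¹ * (Polynomial.X - Polynomial.C y)), ?_, ?_⟩
  · rw [Polynomial.eval_prod]
    refine Finset.prod_eq_one fun y hy => ?_
    have : x0 - y ≠ 0 := sub_ne_zero.2 (Finset.ne_of_mem_erase hy).symm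
    simp [this]
  · intro y hy hne
    rw [Polynomial.eval_prod]
    refine Finset.prod_eq_zero (Finset.mem_erase.2 ⟨hne, hy⟩) ?_
    simp

theorem ne_s (h : Dat x c J s T 𝔤) {a b : ι} (hT : T a b) : b ≠ s a := by
  rintro rfl
  exact h.Tn a hT

theorem ne_s' (h : Dat x c J s T 𝔤) {a b : ι} (hT : T a b) : a ≠ s b :=
  ne_s h (h.Te.symm hT)

/-- STEP 1 -/
theorem root_of (h : Dat x c J s T 𝔤) {Z : Matrix ι ι F} (hZ : Z ∈ 𝔤) {a b : ι} (hab : a ≠ b)
    (hne : Z a b ≠ 0) : EE J s a b ∈ 𝔤 := by
  classical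
  obtain ⟨p, hp1, hp2⟩ := sep (x a / x b)
    (Finset.univ.image fun q : ι × ι => x q.1 / x q.2)
  have h1 := ad_poly h hZ p
  obtain ⟨μ, hμ⟩ := h.sim Z hZ
  have hjb := h.Jn b
  have hrel : Z (s b) (s a) = -(J a (s a) / J b (s b)) * Z a b := by
    have h2 := rel h hμ b a
    have h3 : s a ≠ s b := by
      intro h4
      apply hab
      rw [← h.ss a, h4, h.ss]
    rw [if_neg h3, mul_zero] at h2
    field_simp
    linear_combination h2
  have hq0 : x (s b) / x (s a) = x a / x b := by
    rw [div_eq_div_iff (h.x0 _) (h.x0 _)]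
    linear_combination h.xs b - h.xs a
  -- the entries
  have hent : ∀ d e, p.eval (x d / x e) * Z d e =
      if (d = a ∧ e = b) ∨ (d = s b ∧ e = s a) then Z d e else 0 := by
    intro d e
    by_cases hq : x d / x e = x a / x b
    · rw [hq, hp1, one_mul]
      rw [div_eq_div_iff (h.x0 e) (h.x0 b)] at hq
      rw [if_pos]
      exact h.gen a b d e hab hq.symm
    · rw [hp2 _ (Finset.mem_image.2 ⟨(d, e), Finset.mem_univ _, rfl⟩) hq, zero_mul, if_neg]
      rintro (⟨rfl, rfl⟩ | ⟨rfl, rfl⟩)
      · exact hq rfl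
      · exact hq hq0
  have hb : b ≠ s a := ne_s h (h.off Z hZ a b hne)
  have h2 : EE J s a b = (Z a b)⁻¹ • (Matrix.of fun d e => p.eval (x d / x e) * Z d e) := by
    ext d e
    simp only [EE, Matrix.of_apply, Matrix.smul_apply, smul_eq_mul]
    rw [hent]
    by_cases hc : d = a ∧ e = b
    · have hc2 : ¬ (d = s b ∧ e = s a) := by
        rintro ⟨-, h4⟩
        exact hb (hc.2.symm.trans h4)
      rw [if_pos hc, if_neg hc2, if_pos (Or.inl hc), hc.1, hc.2]
      field_simp
      ring
    · by_cases hc2 : d = s b ∧ e = s a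
      · rw [if_neg hc, if_pos hc2, if_pos (Or.inr hc2), hc2.1, hc2.2, hrel]
        field_simp
        ring
      · rw [if_neg hc, if_neg hc2, if_neg (by tauto)]
        ring
  rw [h2]
  exact 𝔤.smul_mem _ h1

/-- STEP 2 -/
theorem tr (h : Dat x c J s T 𝔤) {a b d : ι} (hab : a ≠ b) (had : a ≠ d)
    (Tab : T a b) (Tbd : T b d)
    (h1 : EE J s a b ∈ 𝔤) (h2 : EE J s b d ∈ 𝔤) : EE J s a d ∈ 𝔤 := by
  classical
  refine root_of h (h.br _ h1 _ h2) had ?_
  rw [Matrix.sub_apply, Matrix.mul_apply, Matrix.mul_apply]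
  have n1 : a ≠ s b := ne_s' h Tab
  have n2 : d ≠ s b := ne_s h Tbd
  have n3 : a ≠ s d := ne_s' h (h.Te.trans Tab Tbd)
  have e1 : ∀ k, EE J s a b a k = (if k = b then 1 else 0) := by
    intro k
    simp only [EE, Matrix.of_apply]
    rw [if_neg (fun h' : a = s b ∧ k = s a => n1 h'.1), mul_zero, sub_zero]
    simp
  have e2 : ∀ k, EE J s b d k d = (if k = b then 1 else 0) := by
    intro k
    simp only [EE, Matrix.of_apply]
    rw [if_neg (fun h' : k = s d ∧ d = s b => n2 h'.2), mul_zero, sub_zero]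
    simp
  have e3 : ∀ k, EE J s b d a k = 0 := by
    intro k
    simp only [EE, Matrix.of_apply]
    rw [if_neg (fun h' : a = b ∧ k = d => hab h'.1),
      if_neg (fun h' : a = s d ∧ k = s b => n3 h'.1), mul_zero, sub_zero]
  simp only [e1, e2, e3, zero_mul, Finset.sum_const_zero, sub_zero]
  rw [Finset.sum_eq_single b]
  · simp
  · intro k _ hk
    simp [hk]
  · intro hk
    exact absurd (Finset.mem_univ _) hk

/-- STEP 3 -/
theorem all_off (h : Dat x c J s T 𝔤) (a b : ι) (hab : a ≠ b) (hT : T a b) :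
    EE J s a b ∈ 𝔤 := by
  classical
  have hP : ∀ Y ∈ Algebra.adjoin F (𝔤 : Set (Matrix ι ι F)), ∀ a b, a ≠ b → Y a b ≠ 0 →
      T a b ∧ EE J s a b ∈ 𝔤 := by
    intro Y hY
    induction hY using Algebra.adjoin_induction with
    | mem Y hY =>
      intro a b hab hne
      exact ⟨h.off Y hY a b hne, root_of h hY hab hne⟩
    | algebraMap r =>
      intro a b hab hne
      rw [Matrix.algebraMap_matrix_apply, if_neg hab] at hne
      exact absurd rfl hne
    | add Y Z _ _ hY hZ =>
      intro a b hab hne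
      by_cases h1 : Y a b = 0
      · refine hZ a b hab fun h2 => hne ?_
        rw [Matrix.add_apply, h1, h2, add_zero]
      · exact hY a b hab h1
    | mul Y Z _ _ hY hZ =>
      intro a b hab hne
      rw [Matrix.mul_apply] at hne
      obtain ⟨k, -, hk⟩ := Finset.exists_ne_zero_of_sum_ne_zero hne
      have h1 := left_ne_zero_of_mul hk
      have h2 := right_ne_zero_of_mul hk
      by_cases hak : a = k
      · rw [← hak] at h2
        exact hZ a b hab h2
      · by_cases hkb : k = b
        · rw [hkb] at h1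
          exact hY a b hab h1
        · obtain ⟨t1, u1⟩ := hY a k hak h1
          obtain ⟨t2, u2⟩ := hZ k b hkb h2
          exact ⟨h.Te.trans t1 t2, tr h hak hab t1 t2 u1 u2⟩
  refine (hP _ (h.adj a b hT) a b hab ?_).2
  rw [Matrix.single_apply_same]
  exact one_ne_zero

theorem EE_eq (J : Matrix ι ι F) (s : ι → ι) (a b : ι) : EE J s a b =
    Matrix.single a b 1 - (J a (s a) / J b (s b)) • Matrix.single (s b) (s a) 1 := by
  ext p q
  simp only [EE, Matrix.of_apply, Matrix.sub_apply, Matrix.smul_apply, Matrix.single_apply,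
    smul_eq_mul, eq_comm]

/-- STEP 4 -/
theorem hdiff (h : Dat x c J s T 𝔤) (a b : ι) (hab : a ≠ b) (hT : T a b) :
    EE J s a a - EE J s b b ∈ 𝔤 := by
  classical
  have h1 := all_off h a b hab hT
  have h2 := all_off h b a hab.symm (h.Te.symm hT)
  have h3 := h.br _ h1 _ h2
  have n1 : b ≠ s a := ne_s h hT
  have n2 : a ≠ s b := ne_s' h hT
  have ja := h.Jn a
  have jb := h.Jn b
  have k1 : EE J s a b * EE J s b a = Matrix.single a a 1 + Matrix.single (s b) (s b) 1 := by
    rw [EE_eq, EE_eq, sub_mul, mul_sub, mul_sub]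
    rw [Matrix.single_mul_single_same, Matrix.mul_smul,
      Matrix.single_mul_single_of_ne (c := (1 : F)) (d := (1 : F)) (h := n1),
      Matrix.smul_mul, Matrix.single_mul_single_of_ne (c := (1 : F)) (d := (1 : F)) (h := n1.symm),
      Matrix.smul_mul,
      Matrix.mul_smul, Matrix.single_mul_single_same, smul_smul, smul_zero, smul_zero, mul_one]
    have : J a (s a) / J b (s b) * (J b (s b) / J a (s a)) = 1 := by
      field_simp
    rw [this, one_smul]
    abel
  have k2 : EE J s b a * EE J s a b = Matrix.single b b 1 + Matrix.single (s a) (s a) 1 := by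
    rw [EE_eq, EE_eq, sub_mul, mul_sub, mul_sub]
    rw [Matrix.single_mul_single_same, Matrix.mul_smul,
      Matrix.single_mul_single_of_ne (c := (1 : F)) (d := (1 : F)) (h := n2),
      Matrix.smul_mul, Matrix.single_mul_single_of_ne (c := (1 : F)) (d := (1 : F)) (h := n2.symm),
      Matrix.smul_mul,
      Matrix.mul_smul, Matrix.single_mul_single_same, smul_smul, smul_zero, smul_zero, mul_one]
    have : J b (s b) / J a (s a) * (J a (s a) / J b (s b)) = 1 := by
      field_simp
    rw [this, one_smul]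
    abel
  rw [k1, k2] at h3
  have k3 : EE J s a a - EE J s b b = Matrix.single a a 1 + Matrix.single (s b) (s b) 1 -
      (Matrix.single b b 1 + Matrix.single (s a) (s a) 1) := by
    rw [EE_eq, EE_eq, div_self ja, div_self jb, one_smul, one_smul]
    abel
  rw [k3]
  exact h3

open Classical in
/-- the theorem in the eigenbasis -/
theorem diag (h : Dat x c J s T 𝔤) (X : Matrix ι ι F) (hX : Xᵀ * J + J * X = 0)
    (hoff : ∀ a b, X a b ≠ 0 → T a b) (htr : ∀ b, ∑ a, (if T a b then X a a else 0) = 0) :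
    X ∈ 𝔤 := by
  have hrel : ∀ a b, X (s b) (s a) = -(J a (s a) / J b (s b)) * X a b := by
    intro a b
    have h2 := rel h (Z := X) (μ := 0) (by rw [hX, zero_smul]) b a
    rw [zero_mul] at h2
    have hjb := h.Jn b
    field_simp
    linear_combination h2
  have h1 : X = ((1 : F) / 2) • ∑ a, ∑ b, X a b • EE J s a b := by
    ext d e
    rw [Matrix.smul_apply, Matrix.sum_apply]
    simp only [Matrix.sum_apply, Matrix.smul_apply, smul_eq_mul, EE, Matrix.of_apply]
    have g1 : ∀ a b, X a b * ((if d = a ∧ e = b then (1 : F) else 0) -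
        J a (s a) / J b (s b) * (if d = s b ∧ e = s a then (1 : F) else 0)) =
        (if d = a then (if e = b then X d e else 0) else 0) +
        (if s e = a then (if s d = b then X d e else 0) else 0) := by
      intro a b
      have g2 : (if d = a ∧ e = b then (1 : F) else 0) * X a b =
          (if d = a then (if e = b then X d e else 0) else 0) := by
        by_cases hd : d = a <;> by_cases he : e = b <;> simp [hd, he]
      have g3 : -(J a (s a) / J b (s b)) * X a b * (if d = s b ∧ e = s a then (1 : F) else 0) =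
          (if s e = a then (if s d = b then X d e else 0) else 0) := by
        by_cases hd : s d = b
        · by_cases he : s e = a
          · have hd' : d = s b := by rw [← hd, h.ss]
            have he' : e = s a := by rw [← he, h.ss]
            rw [if_pos ⟨hd', he'⟩, if_pos he, if_pos hd, mul_one, ← hrel, ← hd', ← he']
          · rw [if_neg (fun h' => he (by rw [h'.2, h.ss])), if_neg he, mul_zero]
        · rw [if_neg (fun h' => hd (by rw [h'.1, h.ss])), if_neg hd, ite_self, mul_zero]
      rw [← g2, ← g3]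
      ring
    simp only [g1, Finset.sum_add_distrib]
    simp
    ring
  have h2 : ∑ a, ∑ b, X a b • EE J s a b =
      ∑ a, ∑ b, (if a = b then 0 else X a b • EE J s a b) + ∑ a, X a a • EE J s a a := by
    rw [← Finset.sum_add_distrib]
    refine Finset.sum_congr rfl fun a _ => ?_
    have h3 : X a a • EE J s a a = ∑ b, (if a = b then X a b • EE J s a b else 0) := by
      rw [Finset.sum_ite_eq Finset.univ a, if_pos (Finset.mem_univ _)]
    rw [h3, ← Finset.sum_add_distrib]
    refine Finset.sum_congr rfl fun b _ => ?_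
    by_cases hab : a = b
    · rw [if_pos hab, if_pos hab, zero_add]
    · rw [if_neg hab, if_neg hab, add_zero]
  rw [h1, h2]
  refine 𝔤.smul_mem _ (𝔤.add_mem (𝔤.sum_mem fun a _ => 𝔤.sum_mem fun b _ => ?_) ?_)
  · by_cases hab : a = b
    · rw [if_pos hab]
      exact 𝔤.zero_mem
    · rw [if_neg hab]
      by_cases h3 : X a b = 0
      · rw [h3, zero_smul]
        exact 𝔤.zero_mem
      · exact 𝔤.smul_mem _ (all_off h a b hab (hoff a b h3))
  · -- the diagonal part
    let st : Setoid ι := ⟨T, h.Te⟩
    let r : ι → ι := fun a => (Quotient.mk st a).out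
    have hr : ∀ a, T (r a) a := fun a => Quotient.mk_out (s := st) a
    have hrr : ∀ a b, r a = r b ↔ T a b := by
      intro a b
      constructor
      · intro h3
        have h4 := hr a
        rw [h3] at h4
        exact h.Te.trans (h.Te.symm h4) (hr b)
      · intro h3
        exact congrArg Quotient.out (Quotient.sound (s := st) h3)
    have h3 : ∑ a, X a a • EE J s a a = ∑ a, X a a • (EE J s a a - EE J s (r a) (r a)) +
        ∑ a, X a a • EE J s (r a) (r a) := by
      rw [← Finset.sum_add_distrib]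
      refine Finset.sum_congr rfl fun a _ => ?_
      rw [← smul_add, sub_add_cancel]
    have h4 : ∑ a, X a a • EE J s (r a) (r a) = 0 := by
      rw [← Finset.sum_fiberwise Finset.univ r]
      refine Finset.sum_eq_zero fun j _ => ?_
      have h5 : ∑ a with r a = j, X a a • EE J s (r a) (r a) =
          (∑ a with r a = j, X a a) • EE J s j j := by
        rw [Finset.sum_smul]
        refine Finset.sum_congr rfl fun a ha => ?_
        rw [(Finset.mem_filter.1 ha).2]
      rw [h5]
      have h6 : ∑ a with r a = j, X a a = 0 := by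
        by_cases hj : ∃ b, r b = j
        · obtain ⟨b, rfl⟩ := hj
          rw [← htr b, Finset.sum_filter]
          refine Finset.sum_congr rfl fun a _ => ?_
          by_cases h7 : T a b
          · rw [if_pos ((hrr a b).2 h7), if_pos h7]
          · rw [if_neg (fun h8 => h7 ((hrr a b).1 h8)), if_neg h7]
        · refine Finset.sum_eq_zero fun a ha => ?_
          exact absurd ⟨a, (Finset.mem_filter.1 ha).2⟩ hj
      rw [h6, zero_smul]
    rw [h3, h4, add_zero]
    refine 𝔤.sum_mem fun a _ => 𝔤.smul_mem _ ?_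
    by_cases h5 : a = r a
    · rw [← h5, sub_self]
      exact 𝔤.zero_mem
    · exact hdiff h a (r a) h5 (h.Te.symm (hr a))

end

end Pool.Agent.Y15.SU
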