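import Pool.Agent.Y142.SU.Stm
import Pool.Agent.Y929.ZS.Root
import Pool.Agent.Y15.SU.Diag

/-! Project Y142-SU, ROOTU -/

set_option autoImplicit false

open Matrix Polynomial

namespace Pool.Agent.Y15.SU

/-- conjugation -/
noncomputable def cj {F : Type} [Field F] {N : ℕ} (P Q : Matrix (Fin N) (Fin N) F) (h1 : P * Q = 1)
    (h2 : Q * P = 1) : Matrix (Fin N) (Fin N) F →ₐ[F] Matrix (Fin N) (Fin N) F :=
  AlgHom.ofLinearMap
    { toFun := fun Z => P * Z * Q
      map_add' := fun Z W => by rw [mul_add, add_mul]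
      map_smul' := fun r Z => by simp }
    (by show P * 1 * Q = 1; rw [mul_one, h1])
    (by
      intro Z W
      show P * (Z * W) * Q = P * Z * Q * (P * W * Q)
      calc P * (Z * W) * Q = P * Z * 1 * W * Q := by noncomm_ring
        _ = _ := by rw [← h2]; noncomm_ring)

theorem t : Pool.Agent.Y142.SU.S_ROOTU := by
  classical
  intro F _ _ N J g c 𝔤 𝒞 hHerm hc hsim hs hsep hgen h𝔤 hbr had hCg hCZ hadj X hX
  obtain ⟨hJ, hJd, -, hstar, A₀, hA₀, A₀', hA₀', hAJ, hAd⟩ := hHerm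
  obtain ⟨x, P, hx, hP, hgP, hroot⟩ := Pool.Agent.Y929.ZS.exists_diag g hs hsep
  have hPd : IsUnit P.det := (Matrix.isUnit_iff_isUnit_det P).1 hP
  have hPi : P⁻¹ * P = 1 := Matrix.nonsing_inv_mul P hPd
  have hPi' : P * P⁻¹ = 1 := Matrix.mul_nonsing_inv P hPd
  obtain ⟨J', hJ'⟩ : ∃ J' : Matrix (Fin N) (Fin N) F, J' = Pᵀ * J * P := ⟨_, rfl⟩
  have hgd : g = P * diagonal x * P⁻¹ := by
    rw [← hgP, mul_assoc, hPi', mul_one]
  -- `g` is invertible
  have hdet : g.det ≠ 0 := by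
    intro h0
    have h1 := congrArg Matrix.det hsim
    rw [Matrix.det_mul, Matrix.det_mul, h0, mul_zero, Matrix.det_smul] at h1
    exact mul_ne_zero (pow_ne_zero _ hc) hJd h1.symm
  have hx0 : ∀ a, x a ≠ 0 := by
    intro a ha
    apply hdet
    rw [hgd, Matrix.det_mul, Matrix.det_mul, Matrix.det_diagonal,
      Finset.prod_eq_zero (Finset.mem_univ a) ha, mul_zero, zero_mul]
  have hDJ : diagonal x * J' * diagonal x = c • J' := by
    have h1 : (P * diagonal x)ᵀ * J * (P * diagonal x) = c • J' := by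
      rw [← hgP, Matrix.transpose_mul]
      calc Pᵀ * gᵀ * J * (g * P) = Pᵀ * (gᵀ * J * g) * P := by noncomm_ring
        _ = c • J' := by
          rw [hsim, hJ']
          simp [mul_assoc]
    rw [← h1, Matrix.transpose_mul, Matrix.diagonal_transpose, hJ']
    noncomm_ring
  have hent : ∀ a b, x a * x b * J' a b = c * J' a b := by
    intro a b
    have h1 := congrFun (congrFun hDJ a) b
    rw [Matrix.mul_diagonal, Matrix.diagonal_mul, Matrix.smul_apply, smul_eq_mul] at h1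
    rw [← h1]
    ring
  have hJt : J'ᵀ = Pᵀ * Jᵀ * P := by
    rw [hJ', Matrix.transpose_mul, Matrix.transpose_mul, Matrix.transpose_transpose]
    noncomm_ring
  have hJs : ∀ a b, J' a b ≠ 0 → J' b a ≠ 0 := by
    intro a b hab
    have h0 : J' b a = J'ᵀ a b := rfl
    rcases hJ with h1 | h1
    · rw [h0, hJt, h1, ← hJ']
      exact hab
    · have h2 : Pᵀ * -J * P = -J' := by
        rw [hJ']
        noncomm_ring
      rw [h0, hJt, h1, h2, Matrix.neg_apply]
      exact neg_ne_zero.2 hab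
  have hJd' : J'.det ≠ 0 := by
    rw [hJ', Matrix.det_mul, Matrix.det_mul, Matrix.det_transpose]
    exact mul_ne_zero (mul_ne_zero hPd.ne_zero hJd) hPd.ne_zero
  have hex : ∀ a, ∃ b, J' a b ≠ 0 := by
    intro a
    by_contra hcon
    push Not at hcon
    exact hJd' (Matrix.det_eq_zero_of_row_eq_zero a hcon)
  choose s hsn using hex
  have hxs : ∀ a, x a * x (s a) = c := fun a => mul_right_cancel₀ (hsn a) (hent a (s a))
  have huniq : ∀ a b, J' a b ≠ 0 → b = s a := by
    intro a b hb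
    have h1 := mul_right_cancel₀ hb (hent a b)
    apply hx
    exact mul_left_cancel₀ (hx0 a) (h1.trans (hxs a).symm)
  have hss : ∀ a, s (s a) = a := fun a => (huniq (s a) a (hJs _ _ (hsn a))).symm
  have hJz : ∀ a b, b ≠ s a → J' a b = 0 := by
    intro a b hb
    by_contra hne
    exact hb (huniq a b hne)
  -- the conjugated algebras
  let φ := cj P P⁻¹ hPi' hPi
  let ψ := cj P⁻¹ P hPi hPi'
  have hφ : ∀ Z, φ Z = P * Z * P⁻¹ := fun Z => rfl
  have hψ : ∀ Z, ψ Z = P⁻¹ * Z * P := fun Z => rfl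
  have hφψ : ∀ Z, φ (ψ Z) = Z := by
    intro Z
    rw [hφ, hψ]
    calc P * (P⁻¹ * Z * P) * P⁻¹ = (P * P⁻¹) * Z * (P * P⁻¹) := by noncomm_ring
      _ = Z := by rw [hPi', one_mul, mul_one]
  have hψφ : ∀ Z, ψ (φ Z) = Z := by
    intro Z
    rw [hφ, hψ]
    calc P⁻¹ * (P * Z * P⁻¹) * P = (P⁻¹ * P) * Z * (P⁻¹ * P) := by noncomm_ring
      _ = Z := by rw [hPi, one_mul, mul_one]
  let 𝔥 : Submodule F (Matrix (Fin N) (Fin N) F) := 𝔤.comap φ.toLinearMap
  have h𝔥 : ∀ Z, Z ∈ 𝔥 ↔ φ Z ∈ 𝔤 := fun Z => Iff.rfl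
  let 𝒟 : Subalgebra F (Matrix (Fin N) (Fin N) F) := 𝒞.comap φ
  have h𝒟 : ∀ Z, Z ∈ 𝒟 ↔ φ Z ∈ 𝒞 := fun Z => Iff.rfl
  have hconv : ∀ (Z : Matrix (Fin N) (Fin N) F) (μ : F), (φ Z)ᵀ * J + J * (φ Z) = μ • J →
      Zᵀ * J' + J' * Z = μ • J' := by
    intro Z μ h1
    rw [hφ] at h1
    have h2 : (P * Z * P⁻¹)ᵀ = P⁻¹ᵀ * Zᵀ * Pᵀ := by
      rw [Matrix.transpose_mul, Matrix.transpose_mul, mul_assoc]
    have h3 : Pᵀ * P⁻¹ᵀ = 1 := by rw [← Matrix.transpose_mul, hPi, Matrix.transpose_one]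
    calc Zᵀ * J' + J' * Z = (Pᵀ * P⁻¹ᵀ) * Zᵀ * (Pᵀ * J * P) + (Pᵀ * J * P) * Z * (P⁻¹ * P) := by
          rw [h3, hPi, one_mul, mul_one, hJ']
      _ = Pᵀ * ((P⁻¹ᵀ * Zᵀ * Pᵀ) * J + J * (P * Z * P⁻¹)) * P := by noncomm_ring
      _ = Pᵀ * (μ • J) * P := by rw [← h2, h1]
      _ = μ • J' := by rw [hJ']; simp [mul_assoc]
  -- the coefficients are diagonal
  have hdg : ∀ A ∈ 𝒟, ∀ a b, a ≠ b → A a b = 0 := by
    intro A hA a b hab
    have h1 := hCg _ ((h𝒟 A).1 hA)
    have h2 : A * diagonal x = diagonal x * A := by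
      have h3 := congrArg ψ h1
      have h4 : ψ g = diagonal x := by
        rw [hψ, hgd]
        calc P⁻¹ * (P * diagonal x * P⁻¹) * P = (P⁻¹ * P) * diagonal x * (P⁻¹ * P) := by
              noncomm_ring
          _ = diagonal x := by rw [hPi, one_mul, mul_one]
      rw [map_mul, map_mul, hψφ, h4] at h3
      exact h3
    have h5 := congrFun (congrFun h2 a) b
    rw [Matrix.mul_diagonal, Matrix.diagonal_mul] at h5
    have h6 : (x a - x b) * A a b = 0 := by linear_combination -h5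
    rcases mul_eq_zero.1 h6 with h7 | h7
    · exact absurd (hx (sub_eq_zero.1 h7)) hab
    · exact h7
  have hdg' : ∀ A ∈ 𝒟, A = diagonal (fun a => A a a) := by
    intro A hA
    ext a b
    by_cases hab : a = b
    · rw [hab, Matrix.diagonal_apply_eq]
    · rw [Matrix.diagonal_apply_ne _ hab, hdg A hA a b hab]
  -- the types
  let T : Fin N → Fin N → Prop := fun a b => ∀ A ∈ 𝒟, A a a = A b b
  have hTe : Equivalence T :=
    ⟨fun a A _ => rfl, fun h A hA => (h A hA).symm, fun h h' A hA => (h A hA).trans (h' A hA)⟩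
  have hTn : ∀ a, ¬ T a (s a) := by
    intro a hT
    have hB : ψ A₀ ∈ 𝒟 := by rw [h𝒟, hφψ]; exact hA₀
    have hB' : ψ A₀' ∈ 𝒟 := by rw [h𝒟, hφψ]; exact hA₀'
    have h1 : (ψ A₀)ᵀ * J' = J' * ψ A₀' := by
      have h3 : P⁻¹ᵀ * Pᵀ = 1 := by rw [← Matrix.transpose_mul, hPi', Matrix.transpose_one]
      rw [hψ, hψ, hJ', Matrix.transpose_mul, Matrix.transpose_mul]
      calc Pᵀ * (A₀ᵀ * P⁻¹ᵀ) * (Pᵀ * J * P) = Pᵀ * A₀ᵀ * (P⁻¹ᵀ * Pᵀ) * J * P := by noncomm_ring
        _ = Pᵀ * (A₀ᵀ * J) * P := by rw [h3]; noncomm_ring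
        _ = Pᵀ * (J * A₀') * P := by rw [hAJ]
        _ = Pᵀ * J * (P * P⁻¹) * A₀' * P := by rw [hPi']; noncomm_ring
        _ = _ := by noncomm_ring
    have h2 : (ψ A₀) (s a) (s a) = (ψ A₀') a a := by
      have h3 := congrFun (congrFun h1 (s a)) a
      rw [hdg' _ hB, hdg' _ hB', Matrix.diagonal_transpose, Matrix.diagonal_mul,
        Matrix.mul_diagonal, mul_comm] at h3
      refine mul_left_cancel₀ (hJs _ _ (hsn a)) ?_
      exact h3
    have h4 : (ψ A₀ - ψ A₀').det = 0 := by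
      have h5 : ψ A₀ - ψ A₀' = diagonal (fun a => ψ A₀ a a - ψ A₀' a a) := by
        conv_lhs => rw [hdg' _ hB, hdg' _ hB']
        rw [Matrix.diagonal_sub]
      rw [h5, Matrix.det_diagonal]
      refine Finset.prod_eq_zero (Finset.mem_univ a) ?_
      rw [hT _ hB, h2, sub_self]
    rw [← map_sub, hψ, Matrix.det_mul, Matrix.det_mul] at h4
    have h6 : (P⁻¹).det ≠ 0 := by
      intro h7
      have h8 := congrArg Matrix.det hPi
      rw [Matrix.det_mul, h7, zero_mul, Matrix.det_one] at h8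
      exact zero_ne_one h8
    exact mul_ne_zero (mul_ne_zero h6 hAd) hPd.ne_zero h4
  have dat : Dat x c J' s T 𝔥 := by
    refine ⟨hx0, hxs, hss, hJz, hsn, ?_, ?_, ?_, ?_, hTe, hTn, ?_, ?_⟩
    · intro a b d e hab heq
      have hmap : ∀ a, g.charpoly.IsRoot (x a) := by
        intro a
        have h1 := hroot a
        rw [Polynomial.coe_aeval_eq_eval] at h1
        exact h1
      have h1 := hgen _ _ _ _ (hmap a) (hmap b) (hmap d) (hmap e) (fun h' => hab (hx h')) heq
      rcases h1 with ⟨h2, h3⟩ | ⟨h2, h3⟩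
      · exact Or.inl ⟨hx h2, hx h3⟩
      · right
        refine ⟨hx ?_, hx ?_⟩
        · refine mul_right_cancel₀ (hx0 b) ?_
          rw [h2, mul_comm, hxs]
        · refine mul_right_cancel₀ (hx0 a) ?_
          rw [h3, mul_comm, hxs]
    · intro Z hZ
      obtain ⟨μ, hμ⟩ := h𝔤 _ ((h𝔥 Z).1 hZ)
      exact ⟨μ, hconv Z μ hμ⟩
    · intro Z hZ W hW
      rw [h𝔥] at hZ hW ⊢
      rw [map_sub, map_mul, map_mul]
      exact hbr _ hZ _ hW
    · intro Z hZ
      rw [h𝔥] at hZ ⊢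
      have h1 := had _ hZ
      have h2 : (Matrix.of fun a b => x a / x b * Z a b) = diagonal x * Z * diagonal (fun a => (x a)⁻¹) := by
        ext a b
        rw [Matrix.mul_diagonal, Matrix.diagonal_mul, Matrix.of_apply]
        ring
      have hφd : φ (diagonal x) = g := by rw [hφ, hgd]
      have h3 : g⁻¹ = φ (diagonal (fun a => (x a)⁻¹)) := by
        refine Matrix.inv_eq_right_inv ?_
        have h4 : diagonal x * diagonal (fun a => (x a)⁻¹) = 1 := by
          rw [Matrix.diagonal_mul_diagonal, ← Matrix.diagonal_one]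
          congr 1
          ext a
          exact mul_inv_cancel₀ (hx0 a)
        rw [← hφd, ← map_mul, h4, map_one]
      rw [h2, map_mul, map_mul, hφd, ← h3]
      exact h1
    · intro Z hZ a b hab A hA
      have h1 := hCZ _ ((h𝒟 A).1 hA) _ ((h𝔥 Z).1 hZ)
      have h2 := congrArg ψ h1
      rw [map_mul, map_mul, hψφ, hψφ] at h2
      have h3 := congrFun (congrFun h2 a) b
      rw [hdg' A hA, Matrix.mul_diagonal, Matrix.diagonal_mul] at h3
      rw [mul_comm (A a a)] at h3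
      exact mul_left_cancel₀ hab h3
    · intro a b hT
      have h1 : φ (Matrix.single a b (1 : F)) ∈ Algebra.adjoin F (𝔤 : Set _) := by
        refine hadj _ fun A hA => ?_
        have hB : ψ A ∈ 𝒟 := by rw [h𝒟, hφψ]; exact hA
        have h2 : Matrix.single a b (1 : F) * ψ A = ψ A * Matrix.single a b (1 : F) := by
          rw [hdg' _ hB]
          ext p q
          rw [Matrix.mul_diagonal, Matrix.diagonal_mul, Matrix.single_apply]
          by_cases hpq : a = p ∧ b = q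
          · rw [if_pos hpq, one_mul, mul_one, ← hpq.1, ← hpq.2]
            exact (hT _ hB).symm
          · rw [if_neg hpq, zero_mul, mul_zero]
        have h3 := congrArg φ h2
        rw [map_mul, map_mul, hφψ] at h3
        exact h3
      have h2 : ψ (φ (Matrix.single a b (1 : F))) ∈
          (Algebra.adjoin F (𝔤 : Set (Matrix (Fin N) (Fin N) F))).map ψ :=
        Subalgebra.mem_map.2 ⟨_, h1, rfl⟩
      rw [hψφ, AlgHom.map_adjoin] at h2
      refine Algebra.adjoin_mono ?_ h2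
      rintro _ ⟨Z, hZ, rfl⟩
      show ψ Z ∈ 𝔥
      rw [h𝔥, hφψ]
      exact hZ
  obtain ⟨hX1, hX2, hX3⟩ := hX
  -- the idempotents
  have hsep1 : ∀ (b : Fin N) (S : Finset (Fin N)), (∀ a ∈ S, ¬ T a b) →
      ∃ A ∈ 𝒟, A b b = 1 ∧ ∀ a ∈ S, A a a = 0 := by
    intro b S
    induction S using Finset.induction_on with
    | empty =>
      intro _
      exact ⟨1, 𝒟.one_mem, Matrix.one_apply_eq b, fun a ha => absurd ha (Finset.notMem_empty a)⟩
    | insert d S hd ih =>
      intro hS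
      obtain ⟨A, hA, hA1, hA2⟩ := ih fun a ha => hS a (Finset.mem_insert_of_mem ha)
      have h1 : ¬ T d b := hS d (Finset.mem_insert_self d S)
      have h2 : ∃ B ∈ 𝒟, B d d ≠ B b b := by
        by_contra hcon
        push Not at hcon
        exact h1 hcon
      obtain ⟨B, hB, hBd⟩ := h2
      have h3 : B b b - B d d ≠ 0 := sub_ne_zero.2 hBd.symm
      let C : Matrix (Fin N) (Fin N) F := (B b b - B d d)⁻¹ • (B - (B d d) • 1)
      have hC : C ∈ 𝒟 := 𝒟.smul_mem (𝒟.sub_mem hB (𝒟.smul_mem 𝒟.one_mem _)) _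
      have hCe : ∀ a, C a a = (B b b - B d d)⁻¹ * (B a a - B d d) := by
        intro a
        simp [C]
      have hAC : ∀ a, (A * C) a a = A a a * C a a := by
        intro a
        conv_lhs => rw [hdg' A hA, Matrix.diagonal_mul]
      refine ⟨A * C, 𝒟.mul_mem hA hC, ?_, ?_⟩
      · rw [hAC, hA1, hCe, one_mul, inv_mul_cancel₀ h3]
      · intro a ha
        rw [hAC]
        rcases Finset.mem_insert.1 ha with ha | ha
        · rw [ha, hCe, sub_self, mul_zero, mul_zero]
        · rw [hA2 a ha, zero_mul]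
  -- conclusion
  have h1 := diag dat (ψ X) (by
    have h2 := hconv (ψ X) 0 (by
      rw [hφψ, zero_smul]
      exact hX2)
    rw [zero_smul] at h2
    exact h2) (by
    intro a b hab A hA
    have h1 := hX1 _ ((h𝒟 A).1 hA)
    have h2 := congrArg ψ h1
    rw [map_mul, map_mul, hψφ] at h2
    have h3 := congrFun (congrFun h2 a) b
    rw [hdg' A hA, Matrix.mul_diagonal, Matrix.diagonal_mul] at h3
    rw [mul_comm (A a a)] at h3
    exact (mul_left_cancel₀ hab h3).symm) (by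
    intro b
    obtain ⟨A, hA, hA1, hA2⟩ := hsep1 b (Finset.univ.filter fun a => ¬ T a b)
      (fun a ha => (Finset.mem_filter.1 ha).2)
    have h1 := hX3 _ ((h𝒟 A).1 hA)
    have h2 : (X * φ A).trace = (ψ X * A).trace := by
      have h3 : X * φ A = P * (ψ X * A) * P⁻¹ := by
        have h4 : φ (ψ X * A) = X * φ A := by rw [map_mul, hφψ]
        rw [← h4, hφ]
      rw [h3, Matrix.trace_mul_comm, ← mul_assoc, hPi, one_mul]
    rw [h2, Matrix.trace] at h1
    refine Eq.trans (Finset.sum_congr rfl fun a _ => ?_) h1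
    have h5 : (ψ X * A) a a = ψ X a a * A a a := by
      conv_lhs => rw [hdg' A hA, Matrix.mul_diagonal]
    rw [Matrix.diag_apply, h5]
    by_cases hT : T a b
    · rw [if_pos hT, hT A hA, hA1, mul_one]
    · rw [if_neg hT, hA2 a (Finset.mem_filter.2 ⟨Finset.mem_univ _, hT⟩), mul_zero])
  rw [h𝔥, hφψ] at h1
  exact h1

end Pool.Agent.Y15.SU
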